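import Mathlib

set_option autoImplicit false

open Filter Topology Finset

namespace Pool.Agent.MP_afd1e1_an.H2

/-- A proper filter on `ℕ` that is minimal among the shift-invariant proper filters. -/
lemma exists_minimal_filter : ∃ F : Filter ℕ, F.NeBot ∧ map (· + 1) F ≤ F ∧
    ∀ G : Filter ℕ, G.NeBot → map (· + 1) G ≤ G → G ≤ F → F ≤ G := by
  set s : Set (Filter ℕ)ᵒᵈ := {G | (OrderDual.ofDual G).NeBot ∧
    map (· + 1) (OrderDual.ofDual G) ≤ OrderDual.ofDual G} with hs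
  obtain ⟨F, -, hF⟩ := zorn_le_nonempty₀ s (fun c hc hch y hy => by
    refine ⟨OrderDual.toDual (⨅ G : c, OrderDual.ofDual G.1), ⟨?_, ?_⟩, fun z hz => ?_⟩
    · have : Nonempty c := ⟨⟨y, hy⟩⟩
      refine iInf_neBot_of_directed' ?_ fun G => (hc G.2).1
      intro G H
      rcases hch.total G.2 H.2 with h | h
      · exact ⟨H, h, le_rfl⟩
      · exact ⟨G, le_rfl, h⟩
    · exact le_iInf fun G => (map_mono (iInf_le _ G)).trans (hc G.2).2
    · exact iInf_le (fun G : c => OrderDual.ofDual G.1) ⟨z, hz⟩)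
    (OrderDual.toDual ⊤) ⟨(inferInstance : (⊤ : Filter ℕ).NeBot), le_top⟩
  exact ⟨OrderDual.ofDual F, hF.1.1, hF.1.2, fun G h1 h2 h3 =>
    hF.2 (y := OrderDual.toDual G) ⟨h1, h2⟩ h3⟩

/-- The recurrence property of an ultrafilter used below. -/
def Rec (U : Ultrafilter ℕ) : Prop :=
  ∀ S : Set ℕ, (∃ᶠ l in atTop, l ∈ S) → ∀ B ∈ U, ∃ v : ℕ,
    ∃ᶠ l in atTop, l ∈ S ∧ ∀ᶠ w in (U : Filter ℕ), v + 2 ^ l + w ∈ B

lemma exists_rec : ∃ U : Ultrafilter ℕ, Rec U := by
  obtain ⟨F, hF, hinv, hmin⟩ := exists_minimal_filter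
  obtain ⟨U, hU⟩ := Ultrafilter.exists_le F
  have hsh : ∀ m : ℕ, map (m + ·) F ≤ F := by
    intro m
    induction m with
    | zero => simp
    | succ m ih =>
      have : (fun x => m + 1 + x) = (· + 1) ∘ (m + ·) := by
        funext x
        simp only [Function.comp]
        ring
      rw [this, ← Filter.map_map]
      exact (map_mono ih).trans hinv
  refine ⟨U, fun S hS B hB => ?_⟩
  set G : Filter ℕ := (atTop ⊓ 𝓟 S).bind fun l => map (2 ^ l + ·) U with hG
  have hGm : ∀ C : Set ℕ, C ∈ G ↔ ∀ᶠ l in atTop ⊓ 𝓟 S, ∀ᶠ w in (U : Filter ℕ), 2 ^ l + w ∈ C :=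
    fun C => Iff.rfl
  have hS' : (atTop ⊓ 𝓟 S).NeBot := frequently_mem_iff_neBot.1 hS
  have hG1 : G.NeBot := by
    refine ⟨fun h => ?_⟩
    have h1 : (∅ : Set ℕ) ∈ G := by rw [h]; exact mem_bot
    obtain ⟨l, hl⟩ := ((hGm _).1 h1).exists
    obtain ⟨w, hw⟩ := hl.exists
    exact hw
  have hG2 : G ≤ F := fun C hC => (hGm C).2 (Eventually.of_forall fun l => hU (hsh _ hC))
  set G' : Filter ℕ := ⨆ v : ℕ, map (v + ·) G with hG'
  have h1 : F ≤ G' := by
    refine hmin G' ?_ ?_ (iSup_le fun v => (map_mono hG2).trans (hsh v))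
    · exact (hG1.map (0 + ·)).mono (le_iSup (fun v : ℕ => map (v + ·) G) 0)
    · rw [hG', Filter.map_iSup]
      refine iSup_le fun v => le_trans (le_of_eq ?_) (le_iSup (fun v : ℕ => map (v + ·) G) (v + 1))
      rw [Filter.map_map]
      congr 1
      funext x
      simp only [Function.comp]
      ring
  by_contra hcon
  push Not at hcon
  have h2 : Bᶜ ∈ G' := by
    rw [hG', mem_iSup]
    intro v
    rw [Filter.mem_map, hGm, eventually_inf_principal]
    filter_upwards [hcon v] with l hl hlS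
    have h3 := hl hlS
    filter_upwards [h3] with w hw
    simpa [add_assoc] using hw
  exact (Ultrafilter.compl_mem_iff_notMem.1 (hU (h1 h2))) hB

/-- No family of tests that is stable under small shifts and square summable can be large
at infinitely many scales along a recurrent ultrafilter. -/
lemma chain {U : Ultrafilter ℕ} (hU : Rec U) {t : ℕ → ℕ → ℝ} {K B ε : ℝ} (hε : 0 < ε)
    (hK : ∀ k h o : ℕ, |t k (o + h) - t k h| ≤ K * o / 2 ^ k)
    (hB : ∀ (I : Finset ℕ) (h : ℕ), ∑ k ∈ I, t k h ^ 2 ≤ B) :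
    ∀ᶠ k in atTop, ¬ ∀ᶠ w in (U : Filter ℕ), ε < |t k (2 ^ k + w)| := by
  by_contra hcon
  rw [not_eventually] at hcon
  simp only [not_not] at hcon
  have key : ∀ n : ℕ, ∃ (o : ℕ) (I : Finset ℕ), I.card = n ∧
      ∀ᶠ w in (U : Filter ℕ), ∀ k ∈ I, ε / 2 < |t k (o + w)| := by
    intro n
    induction n with
    | zero => exact ⟨0, ∅, rfl, by simp⟩
    | succ n ih =>
      obtain ⟨o, I, hI, hw⟩ := ih
      obtain ⟨v, hv⟩ := hU {k | ∀ᶠ w in (U : Filter ℕ), ε < |t k (2 ^ k + w)|} hcon _ hw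
      have e1 : ∀ᶠ l in atTop, l ∉ I := by
        filter_upwards [eventually_gt_atTop (I.sup id)] with l hl hlI
        exact absurd (le_sup (f := id) hlI) (not_le.2 hl)
      have e2 : ∀ᶠ l : ℕ in atTop, K * ((o + v : ℕ) : ℝ) / 2 ^ l < ε / 2 := by
        have : Tendsto (fun l : ℕ => K * ((o + v : ℕ) : ℝ) / 2 ^ l) atTop (𝓝 0) :=
          tendsto_const_nhds.div_atTop (tendsto_pow_atTop_atTop_of_one_lt one_lt_two)
        exact this.eventually (gt_mem_nhds (by positivity))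
      obtain ⟨l, ⟨hl1, hl2⟩, hl3, hl4⟩ := (hv.and_eventually (e1.and e2)).exists
      refine ⟨o + v + 2 ^ l, insert l I, by rw [card_insert_of_notMem hl3, hI], ?_⟩
      filter_upwards [hl1, hl2] with w h1 h2 k hk
      rcases mem_insert.1 hk with rfl | hk
      · have h3 := hK k (2 ^ k + w) (o + v)
        rw [show o + v + (2 ^ k + w) = o + v + 2 ^ k + w by ring] at h3
        have h4 := abs_sub_abs_le_abs_sub (t k (2 ^ k + w)) (t k (o + v + 2 ^ k + w))
        rw [abs_sub_comm] at h4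
        linarith
      · have h3 := h2 k hk
        rwa [show o + (v + 2 ^ l + w) = o + v + 2 ^ l + w by ring] at h3
  obtain ⟨n, hn⟩ := exists_nat_gt (B / (ε / 2) ^ 2)
  obtain ⟨o, I, hI, hw⟩ := key n
  obtain ⟨w, hw⟩ := hw.exists
  have h1 : ∑ _k ∈ I, (ε / 2) ^ 2 ≤ ∑ k ∈ I, t k (o + w) ^ 2 :=
    sum_le_sum fun k hk => by
      rw [← sq_abs (t k (o + w))]
      exact pow_le_pow_left₀ (by positivity) (hw k hk).le 2
  rw [sum_const, hI, nsmul_eq_mul] at h1
  rw [div_lt_iff₀ (by positivity)] at hn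
  linarith [hB I (o + w)]

/-- Limit of a bounded family of functionals along an ultrafilter. -/
lemma exists_lim {Y ι : Type*} [NormedAddCommGroup Y] [NormedSpace ℝ Y] (U : Ultrafilter ι)
    (T : ι → Y →ₗ[ℝ] ℝ) (C : ℝ) (hT : ∀ i y, |T i y| ≤ C * ‖y‖) :
    ∃ φ : Y →L[ℝ] ℝ, (∀ y, |φ y| ≤ C * ‖y‖) ∧ ∀ y, Tendsto (fun i => T i y) U (𝓝 (φ y)) := by
  have h1 : ∀ y, ∃ a : ℝ, |a| ≤ C * ‖y‖ ∧ Tendsto (fun i => T i y) U (𝓝 a) := by
    intro y
    obtain ⟨a, ha, hl⟩ := (isCompact_Icc (a := -(C * ‖y‖)) (b := C * ‖y‖)).ultrafilter_le_nhds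
      (U.map fun i => T i y) (by
        rw [Ultrafilter.coe_map, le_principal_iff, Filter.mem_map]
        exact Eventually.of_forall fun i => abs_le.1 (hT i y))
    exact ⟨a, abs_le.2 ha, hl⟩
  choose a ha hl using h1
  let φ : Y →ₗ[ℝ] ℝ :=
    { toFun := a
      map_add' := fun x y => tendsto_nhds_unique (hl (x + y))
        (by simpa only [map_add] using (hl x).add (hl y))
      map_smul' := fun c x => tendsto_nhds_unique (hl (c • x))
        (by simpa only [map_smul, smul_eq_mul, RingHom.id_apply] using (hl x).const_mul c) }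
  exact ⟨φ.mkContinuous C ha, ha, hl⟩

lemma sep {n k k' : ℕ} (hk : k ≤ n) (hk' : k' ≤ n) (hne : k ≠ k') {y y' r : ℤ}
    (hy : (2 : ℤ) ^ (n + 1) ∣ y - 2 ^ k - r) (hy' : (2 : ℤ) ^ (n + 1) ∣ y' - 2 ^ k' - r) :
    2 ^ k ≤ 2 * |y - y'| := by
  obtain ⟨m, hm⟩ := hy.sub hy'
  have h1 : (2 : ℤ) ^ k ≤ 2 ^ n := pow_le_pow_right₀ (by norm_num) hk
  have h2 : (2 : ℤ) ^ k' ≤ 2 ^ n := pow_le_pow_right₀ (by norm_num) hk'
  have h3 : (0 : ℤ) < 2 ^ k := by positivity
  have h4 : (0 : ℤ) < 2 ^ k' := by positivity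
  have h5 : 2 * (2 : ℤ) ^ k' ≤ 2 ^ k ∨ 2 * (2 : ℤ) ^ k ≤ 2 ^ k' := by
    rcases lt_or_gt_of_ne hne with h | h
    · right
      rw [← pow_succ']
      exact pow_le_pow_right₀ (by norm_num) h
    · left
      rw [← pow_succ']
      exact pow_le_pow_right₀ (by norm_num) h
  rw [pow_succ] at hm
  have h6 := le_abs_self (y - y')
  have h7 := neg_abs_le (y - y')
  rcases lt_trichotomy m 0 with h | h | h
  · nlinarith
  · subst h
    rcases h5 with h5 | h5 <;> linarith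
  · nlinarith

end Pool.Agent.MP_afd1e1_an.H2
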