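import Pool.Agent.MP_afd1e1_an.H2.Tests
import Pool.Agent.MP_afd1e1_an.H2.Recur

set_option autoImplicit false

open Filter Topology Finset

namespace Pool.Agent.MP_afd1e1_an.H2

lemma exists_pair {X : Type*} [NormedAddCommGroup X] [NormedSpace ℝ X]
    (hX : 2 ≤ Module.rank ℝ X) :
    ∃ (a b : X) (c : ℝ), 0 < c ∧
      ∀ s t : ℝ, c * |s| ≤ ‖s • a + t • b‖ ∧ c * |t| ≤ ‖s • a + t • b‖ := by
  obtain ⟨v, hv⟩ := exists_linearIndependent_of_le_rank (n := 2) (by exact_mod_cast hX)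
  let f : (ℝ × ℝ) →ₗ[ℝ] X := (LinearMap.fst ℝ ℝ ℝ).smulRight (v 0) +
    (LinearMap.snd ℝ ℝ ℝ).smulRight (v 1)
  have hf : LinearMap.ker f = ⊥ := by
    rw [LinearMap.ker_eq_bot']
    rintro ⟨s, t⟩ h
    have h1 := Fintype.linearIndependent_iff.1 hv ![s, t] (by simpa [f, Fin.sum_univ_two] using h)
    have h2 := h1 0
    have h3 := h1 1
    simp only [Matrix.cons_val_zero, Matrix.cons_val_one] at h2 h3
    simp [h2, h3]
  obtain ⟨K, hK, hA⟩ := f.exists_antilipschitzWith hf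
  have hK' : (0 : ℝ) < K := hK
  refine ⟨v 0, v 1, (K : ℝ)⁻¹, by positivity, fun s t => ?_⟩
  have h1 : ‖(s, t)‖ ≤ K * ‖s • v 0 + t • v 1‖ := by
    simpa [f] using hA.le_mul_norm (map_zero f) (s, t)
  have h2 : |s| ≤ ‖(s, t)‖ := norm_fst_le (s, t)
  have h3 : |t| ≤ ‖(s, t)‖ := norm_snd_le (s, t)
  constructor <;> rw [inv_mul_le_iff₀ hK'] <;> linarith

/-- The bump functions: one for each `n` and residue `r`. -/
lemma exists_bump {X : Type*} [NormedAddCommGroup X] [NormedSpace ℝ X] {a b : X} {c : ℝ}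
    (hc : 0 < c) (hab : ∀ s t : ℝ, c * |s| ≤ ‖s • a + t • b‖ ∧ c * |t| ≤ ‖s • a + t • b‖)
    (n r : ℕ) : ∃ f : X → ℝ, f 0 = 0 ∧ LipschitzWith 1 f ∧
      ∀ k ≤ n, ∀ w : ℕ, (2 : ℤ) ^ (n + 1) ∣ (w : ℤ) - r → ∀ N : ℕ,
        c / 2 ≤ tau k N fun x => f ((x : ℝ) • a + ((2 ^ k + w : ℕ) : ℝ) • b) := by
  set Z : Set X := {z | ∃ k ≤ n, ∃ j y : ℕ, (2 : ℤ) ^ (n + 1) ∣ (y : ℤ) - 2 ^ k - r ∧
    z = ((2 * j * 2 ^ k : ℕ) : ℝ) • a + (y : ℝ) • b} with hZ
  have hZne : Z.Nonempty := ⟨_, 0, Nat.zero_le n, 0, 1 + r, by simp, rfl⟩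
  refine ⟨fun z => Metric.infDist z Z - Metric.infDist 0 Z, sub_self _, ?_, ?_⟩
  · refine LipschitzWith.of_dist_le_mul fun x y => ?_
    have := (Metric.lipschitz_infDist_pt Z).dist_le_mul x y
    simpa [Real.dist_eq] using this
  · intro k hk w hw N
    have hy : (2 : ℤ) ^ (n + 1) ∣ ((2 ^ k + w : ℕ) : ℤ) - 2 ^ k - r := by
      push_cast
      rwa [add_sub_cancel_left]
    refine le_A (c₀ := -Metric.infDist 0 Z) (by positivity) (by positivity) (fun j => ?_)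
      fun j => ?_
    · beta_reduce
      rw [Metric.infDist_zero_of_mem (s := Z) ⟨k, hk, j, _, hy, rfl⟩, zero_sub]
    · have h1 : c / 2 * ((2 ^ k : ℕ) : ℝ) ≤ Metric.infDist
          ((((2 * j + 1) * 2 ^ k : ℕ) : ℝ) • a + ((2 ^ k + w : ℕ) : ℝ) • b) Z := by
        rw [Metric.le_infDist hZne]
        rintro _ ⟨k', hk', j', y', hy', rfl⟩
        rw [dist_eq_norm, add_sub_add_comm, ← sub_smul, ← sub_smul]
        rcases eq_or_ne k k' with rfl | hne
        · refine le_trans ?_ (hab _ _).1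
          have h2 : (1 : ℤ) ≤ |2 * (j : ℤ) + 1 - 2 * j'| := Int.one_le_abs (by omega)
          have h3 : (1 : ℝ) ≤ |2 * (j : ℝ) + 1 - 2 * j'| := by exact_mod_cast h2
          have h4 : (((2 * j + 1) * 2 ^ k : ℕ) : ℝ) - ((2 * j' * 2 ^ k : ℕ) : ℝ) =
              (2 * (j : ℝ) + 1 - 2 * j') * 2 ^ k := by
            push_cast
            ring
          rw [h4, abs_mul, abs_of_pos (by positivity : (0 : ℝ) < 2 ^ k)]
          push_cast
          have h5 : (0 : ℝ) < c * 2 ^ k := by positivity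
          nlinarith
        · refine le_trans ?_ (hab _ _).2
          have h2 := sep hk hk' hne hy hy'
          have h3 : (2 : ℝ) ^ k ≤ 2 * |((2 ^ k + w : ℕ) : ℝ) - y'| := by exact_mod_cast h2
          rw [Nat.cast_pow, Nat.cast_ofNat]
          nlinarith
      linarith

/-- If `X` has dimension at least two, the space of Lipschitz functions vanishing at `0`
has a weak-star null sequence of functionals that is not weakly null. -/
theorem not_grothendieck {X Y : Type*} [NormedAddCommGroup X] [NormedSpace ℝ X]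
    (hX : 2 ≤ Module.rank ℝ X) [NormedAddCommGroup Y] [NormedSpace ℝ Y] (e : Y →ₗ[ℝ] (X → ℝ))
    (h1 : ∀ f : X → ℝ, (∃ y : Y, e y = f) ↔ (f 0 = 0 ∧ ∃ K : NNReal, LipschitzWith K f))
    (h2 : ∀ (y : Y) (K : NNReal), LipschitzWith K (e y) ↔ ‖y‖ ≤ (K : ℝ)) :
    ∃ φ : ℕ → (Y →L[ℝ] ℝ), (∀ y : Y, Tendsto (fun n => φ n y) atTop (𝓝 0)) ∧
      ∃ Ψ : (Y →L[ℝ] ℝ) →L[ℝ] ℝ, ¬ Tendsto (fun n => Ψ (φ n)) atTop (𝓝 0) := by
  obtain ⟨a, b, c, hc, hab⟩ := exists_pair hX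
  obtain ⟨U, hU⟩ := exists_rec
  set W : Ultrafilter ℕ := hyperfilter ℕ with hWdef
  have hW : (W : Filter ℕ) ≤ atTop := by
    rw [← Nat.cofinite_eq_atTop]
    exact hyperfilter_le_cofinite
  have hlip : ∀ (y : Y) (p q : X), |e y p - e y q| ≤ ‖y‖ * ‖p - q‖ := fun y p q => by
    simpa [Real.dist_eq, dist_eq_norm] using ((h2 y ‖y‖₊).2 le_rfl).dist_le_mul p q
  set R : ℕ → Y →ₗ[ℝ] (ℕ → ℝ) := fun h =>
    LinearMap.funLeft ℝ ℝ (fun x : ℕ => (x : ℝ) • a + (h : ℝ) • b) ∘ₗ e with hR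
  have hRa : ∀ h y x, R h y x = e y ((x : ℝ) • a + (h : ℝ) • b) := fun _ _ _ => rfl
  have hRL : ∀ h y (x m : ℕ), |R h y (x + m) - R h y x| ≤ ‖a‖ * ‖y‖ * m := by
    intro h y x m
    rw [hRa, hRa]
    refine (hlip _ _ _).trans (le_of_eq ?_)
    rw [add_sub_add_right_eq_sub, ← sub_smul, norm_smul]
    push_cast
    rw [add_sub_cancel_left, Real.norm_natCast]
    ring
  have hT : ∀ k h : ℕ, ∃ T : Y →L[ℝ] ℝ, (∀ y, |T y| ≤ ‖a‖ * ‖y‖) ∧
      ∀ y, Tendsto (fun N => tau k N (R h y)) W (𝓝 (T y)) := fun k h =>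
    exists_lim W (fun N => tau k N ∘ₗ R h) ‖a‖ fun N y =>
      abs_A_le (by positivity) (by positivity) (by positivity) (hRL h y)
  choose T hTb hT using hT
  have hφ : ∀ k : ℕ, ∃ φ : Y →L[ℝ] ℝ, (∀ y, |φ y| ≤ ‖a‖ * ‖y‖) ∧
      ∀ y, Tendsto (fun w => T k (2 ^ k + w) y) U (𝓝 (φ y)) := fun k =>
    exists_lim U (fun w => (T k (2 ^ k + w) : Y →ₗ[ℝ] ℝ)) ‖a‖ fun w y => hTb _ _ y
  choose φ hφb hφ using hφ
  refine ⟨φ, fun y => ?_, ?_⟩
  · rw [Metric.tendsto_nhds]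
    intro ε hε
    have hK : ∀ k h o : ℕ, |T k (o + h) y - T k h y| ≤ 2 * (‖y‖ * ‖b‖) * o / 2 ^ k := by
      intro k h o
      refine le_of_tendsto' ((hT k (o + h) y).sub (hT k h y)).abs fun N => ?_
      rw [← map_sub]
      refine (abs_A_le_sup (δ := ‖y‖ * ‖b‖ * o) (by positivity) (by positivity)
        fun x => ?_).trans (le_of_eq ?_)
      · rw [Pi.sub_apply, hRa, hRa]
        refine (hlip _ _ _).trans (le_of_eq ?_)
        rw [add_sub_add_left_eq_sub, ← sub_smul, norm_smul]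
        push_cast
        rw [add_sub_cancel_right, Real.norm_natCast]
        ring
      · push_cast
        ring
    have hB : ∀ (I : Finset ℕ) (h : ℕ), ∑ k ∈ I, T k h y ^ 2 ≤ (‖a‖ * ‖y‖) ^ 2 := by
      intro I h
      refine le_of_tendsto (tendsto_finsetSum I fun k _ => (hT k h y).pow 2) ?_
      filter_upwards [hW (eventually_gt_atTop (I.sup id))] with N hN
      refine le_trans (sum_le_sum_of_subset_of_nonneg (fun k hk => mem_range.2 ?_)
        fun _ _ _ => sq_nonneg _) (bessel (hRL h y) N)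
      exact lt_of_le_of_lt (le_sup (f := id) hk) hN
    filter_upwards [chain hU (t := fun k h => T k h y) (half_pos hε) hK hB] with k hk
    rw [Real.dist_eq, sub_zero]
    by_contra hcon
    exact hk ((hφ k y).abs.eventually (lt_mem_nhds (by linarith)))
  · have hy : ∀ n : ℕ, ∃ y : Y, ‖y‖ ≤ 1 ∧ ∀ k ≤ n, c / 2 ≤ φ k y := by
      intro n
      have hr : ∃ r : Fin (2 ^ (n + 1)), ∀ᶠ w : ℕ in (U : Filter ℕ), w % 2 ^ (n + 1) = (r : ℕ) := by
        rw [← Ultrafilter.eventually_exists_iff]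
        exact Eventually.of_forall fun w => ⟨⟨_, Nat.mod_lt w (by positivity)⟩, rfl⟩
      obtain ⟨r, hr⟩ := hr
      obtain ⟨f, hf0, hf1, hf⟩ := exists_bump hc hab n r
      obtain ⟨y, rfl⟩ := (h1 f).2 ⟨hf0, 1, hf1⟩
      refine ⟨y, by simpa using (h2 y 1).1 hf1, fun k hk => ?_⟩
      refine ge_of_tendsto (hφ k y) ?_
      filter_upwards [hr] with w hw
      refine ge_of_tendsto' (hT k _ y) fun N => hf k hk w ?_ N
      rw [← hw]
      push_cast
      exact Int.dvd_self_sub_emod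
    choose y hy1 hy using hy
    obtain ⟨Ψ, -, hΨ⟩ := exists_lim (Y := Y →L[ℝ] ℝ) W
      (fun n => (ContinuousLinearMap.apply ℝ ℝ (y n) : (Y →L[ℝ] ℝ) →ₗ[ℝ] ℝ)) 1 fun n ψ => by
        have h3 := ψ.le_opNorm (y n)
        have h4 : ‖ψ‖ * ‖y n‖ ≤ ‖ψ‖ * 1 := mul_le_mul_of_nonneg_left (hy1 n) (norm_nonneg _)
        simpa using h3.trans h4
    refine ⟨Ψ, fun hcon => ?_⟩
    have h3 : ∀ k, c / 2 ≤ Ψ (φ k) := fun k => by
      refine ge_of_tendsto (hΨ (φ k)) ?_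
      filter_upwards [hW (eventually_ge_atTop k)] with n hn
      exact hy n k hn
    have h4 := ge_of_tendsto' hcon h3
    linarith

end Pool.Agent.MP_afd1e1_an.H2
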