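import Mathlib

set_option autoImplicit false

open Filter Topology Finset

namespace Pool.Agent.MP_afd1e1_an.H2

/-- Average of the second differences of `h` at scale `l` over `M` consecutive blocks. -/
noncomputable def A (l M : ℕ) : (ℕ → ℝ) →ₗ[ℝ] ℝ where
  toFun h := (∑ j ∈ range M, (2 * h ((2 * j + 1) * l) - h (2 * j * l) - h ((2 * j + 2) * l)))
    / (2 * l * M)
  map_add' g h := by
    rw [← add_div, ← sum_add_distrib]
    congr 1
    exact sum_congr rfl fun j _ => by simp only [Pi.add_apply]; ring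
  map_smul' c h := by
    simp only [Pi.smul_apply, smul_eq_mul, RingHom.id_apply]
    rw [← mul_div_assoc, mul_sum]
    congr 1
    exact sum_congr rfl fun j _ => by ring

lemma A_apply (l M : ℕ) (h : ℕ → ℝ) : A l M h =
    (∑ j ∈ range M, (2 * h ((2 * j + 1) * l) - h (2 * j * l) - h ((2 * j + 2) * l)))
      / (2 * l * M) := rfl

/-- Mean square slope of `h` at scale `l` over `M` consecutive blocks. -/
noncomputable def En (l M : ℕ) (h : ℕ → ℝ) : ℝ :=
  (∑ j ∈ range M, (h ((j + 1) * l) - h (j * l)) ^ 2) / (l ^ 2 * M)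

lemma En_nonneg (l M : ℕ) (h : ℕ → ℝ) : 0 ≤ En l M h := by
  unfold En
  positivity

lemma En_le {l M : ℕ} (hl : 0 < l) (hM : 0 < M) {h : ℕ → ℝ} {L : ℝ}
    (hL : ∀ x m : ℕ, |h (x + m) - h x| ≤ L * m) : En l M h ≤ L ^ 2 := by
  have hl' : (0 : ℝ) < l := by exact_mod_cast hl
  have hM' : (0 : ℝ) < M := by exact_mod_cast hM
  unfold En
  rw [div_le_iff₀ (by positivity)]
  calc ∑ j ∈ range M, (h ((j + 1) * l) - h (j * l)) ^ 2 ≤ ∑ _j ∈ range M, (L * l) ^ 2 := by
        refine sum_le_sum fun j _ => ?_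
        have h1 := hL (j * l) l
        rw [show j * l + l = (j + 1) * l by ring] at h1
        exact sq_le_sq' (abs_le.1 h1).1 (abs_le.1 h1).2
    _ = L ^ 2 * (l ^ 2 * M) := by
        rw [sum_const, card_range, nsmul_eq_mul]
        ring

lemma sum_two_mul (f : ℕ → ℝ) (M : ℕ) :
    ∑ j ∈ range (2 * M), f j = ∑ j ∈ range M, (f (2 * j) + f (2 * j + 1)) := by
  induction M with
  | zero => simp
  | succ M ih =>
    rw [show 2 * (M + 1) = 2 * M + 1 + 1 by ring, sum_range_succ, sum_range_succ, sum_range_succ,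
      ih]
    ring

lemma sq_A_le {l M : ℕ} (hl : 0 < l) (hM : 0 < M) (h : ℕ → ℝ) :
    A l M h ^ 2 ≤ En l (2 * M) h - En (2 * l) M h := by
  have hl' : (0 : ℝ) < l := by exact_mod_cast hl
  have hM' : (0 : ℝ) < M := by exact_mod_cast hM
  set d : ℕ → ℝ := fun j => 2 * h ((2 * j + 1) * l) - h (2 * j * l) - h ((2 * j + 2) * l) with hd
  have h1 : En l (2 * M) h - En (2 * l) M h = (∑ j ∈ range M, d j ^ 2) / (4 * l ^ 2 * M) := by
    unfold En
    rw [sum_two_mul]
    have h2 : ∑ j ∈ range M, d j ^ 2 =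
        2 * ∑ j ∈ range M, ((h ((2 * j + 1) * l) - h (2 * j * l)) ^ 2 +
          (h ((2 * j + 1 + 1) * l) - h ((2 * j + 1) * l)) ^ 2) -
        ∑ j ∈ range M, (h ((j + 1) * (2 * l)) - h (j * (2 * l))) ^ 2 := by
      rw [mul_sum, ← sum_sub_distrib]
      refine sum_congr rfl fun j _ => ?_
      rw [show (j + 1) * (2 * l) = (2 * j + 2) * l by ring, show j * (2 * l) = 2 * j * l by ring,
        show (2 * j + 1 + 1) * l = (2 * j + 2) * l by ring, hd]
      ring
    rw [h2]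
    push_cast
    field_simp
    ring
  have h3 : (∑ j ∈ range M, d j) ^ 2 ≤ M * ∑ j ∈ range M, d j ^ 2 := by
    simpa using sq_sum_le_card_mul_sum_sq (s := range M) (f := d)
  rw [h1, A_apply, div_pow, div_le_div_iff₀ (by positivity) (by positivity)]
  calc (∑ j ∈ range M, d j) ^ 2 * (4 * l ^ 2 * M)
      ≤ (M * ∑ j ∈ range M, d j ^ 2) * (4 * l ^ 2 * M) := by gcongr
    _ = _ := by ring

lemma abs_A_le {l M : ℕ} (hl : 0 < l) (hM : 0 < M) {h : ℕ → ℝ} {L : ℝ} (hL0 : 0 ≤ L)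
    (hL : ∀ x m : ℕ, |h (x + m) - h x| ≤ L * m) : |A l M h| ≤ L := by
  refine abs_le_of_sq_le_sq' ?_ hL0 |> abs_le.2
  have h1 := sq_A_le hl hM h
  have h2 := En_le hl (by omega : 0 < 2 * M) hL
  have h3 := En_nonneg (2 * l) M h
  linarith

lemma abs_A_le_sup {l M : ℕ} (hl : 0 < l) (hM : 0 < M) {h : ℕ → ℝ} {δ : ℝ}
    (hδ : ∀ x, |h x| ≤ δ) : |A l M h| ≤ 2 * δ / l := by
  have hl' : (0 : ℝ) < l := by exact_mod_cast hl
  have hM' : (0 : ℝ) < M := by exact_mod_cast hM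
  rw [A_apply, abs_div, abs_of_pos (by positivity : (0 : ℝ) < 2 * l * M),
    div_le_div_iff₀ (by positivity) hl']
  have h1 : |∑ j ∈ range M, (2 * h ((2 * j + 1) * l) - h (2 * j * l) - h ((2 * j + 2) * l))|
      ≤ ∑ _j ∈ range M, 4 * δ := by
    refine (abs_sum_le_sum_abs _ _).trans (sum_le_sum fun j _ => ?_)
    have a1 := abs_le.1 (hδ ((2 * j + 1) * l))
    have a2 := abs_le.1 (hδ (2 * j * l))
    have a3 := abs_le.1 (hδ ((2 * j + 2) * l))
    rw [abs_le]
    constructor <;> linarith [a1.1, a1.2, a2.1, a2.2, a3.1, a3.2]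
  rw [sum_const, card_range, nsmul_eq_mul] at h1
  calc _ ≤ (M * (4 * δ)) * l := by gcongr
    _ = _ := by ring

lemma le_A {l M : ℕ} (hl : 0 < l) (hM : 0 < M) {h : ℕ → ℝ} {c c₀ : ℝ}
    (h0 : ∀ j, h (2 * j * l) = c₀) (h1 : ∀ j, c₀ + c * l ≤ h ((2 * j + 1) * l)) :
    c ≤ A l M h := by
  have hl' : (0 : ℝ) < l := by exact_mod_cast hl
  have hM' : (0 : ℝ) < M := by exact_mod_cast hM
  rw [A_apply, le_div_iff₀ (by positivity)]
  calc c * (2 * l * M) = ∑ _j ∈ range M, 2 * (c * l) := by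
        rw [sum_const, card_range, nsmul_eq_mul]
        ring
    _ ≤ _ := by
        refine sum_le_sum fun j _ => ?_
        have a1 := h0 (j + 1)
        rw [show 2 * (j + 1) * l = (2 * j + 2) * l by ring] at a1
        linarith [h0 j, h1 j]

/-- The test at scale `2 ^ k` on the window of length `2 ^ N`. -/
noncomputable def tau (k N : ℕ) : (ℕ → ℝ) →ₗ[ℝ] ℝ := A (2 ^ k) (2 ^ (N - (k + 1)))

lemma bessel {h : ℕ → ℝ} {L : ℝ} (hL : ∀ x m : ℕ, |h (x + m) - h x| ≤ L * m) (N : ℕ) :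
    ∑ k ∈ range N, tau k N h ^ 2 ≤ L ^ 2 := by
  set E : ℕ → ℝ := fun k => En (2 ^ k) (2 ^ (N - k)) h with hE
  have h1 : ∑ k ∈ range N, tau k N h ^ 2 ≤ ∑ k ∈ range N, (E k - E (k + 1)) := by
    refine sum_le_sum fun k hk => ?_
    have hk' := mem_range.1 hk
    have h2 := sq_A_le (l := 2 ^ k) (M := 2 ^ (N - (k + 1))) (by positivity) (by positivity) h
    rw [← pow_succ', ← pow_succ', show N - (k + 1) + 1 = N - k by omega] at h2
    exact h2
  rw [sum_range_sub'] at h1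
  have h2 : E 0 ≤ L ^ 2 := En_le (by positivity) (by positivity) hL
  have h3 : 0 ≤ E N := En_nonneg _ _ _
  linarith

end Pool.Agent.MP_afd1e1_an.H2
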